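import Mathlib
import Pool.Agent.Y226.CM.Prod
import Pool.Agent.Y226.CM.Chol

/-!
# Minimal foliations with non-Hausdorff leaf space for every left-invariant metric on `Aff⁺(ℝ) × ℝ`

The notions (left-invariant Riemannian metrics on `ℝ³`, foliations given by their unit normal
field, leaves, mean curvature, CMC foliations, product foliations by planes) are those of the
starting file `Pool/Agent/Results/MP_c71f82_gt/NonProductH2R.lean`, which shows that **one** metric
(the product metric of `ℍ² × ℝ`) has a CMC foliation which is not a product foliation by planes.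

Here the same is proved for **every** left-invariant Riemannian metric `g` on the Lie group
`Aff⁺(ℝ) × ℝ`, which is `ℝ³` with the product
`(x, t, z) (x', t', z') = (x + e^t x', t + t', z + z')`. These metrics form a family with six
parameters: by the Cholesky decomposition, `g = θ_A² + θ_C² + θ_0²` with `θ_0 = λ dt`,
`θ_C = μ dz + ν dt`, `θ_A = σ e^{-t} dx + ρ dz + τ dt`, `λ, μ, σ > 0`.

Let `φ = (μ z + ν t) / λ`. The foliation is the one by the components of the level sets of
`e^{-t} cos φ`, its unit conormal field is `cos φ θ_0 + sin φ θ_C`. All leaves are minimal. The two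
leaves `φ = -π/2` and `φ = π/2` are both limits of the leaves `e^{-t} cos φ = c`, `c → 0`. So the
leaf space is not Hausdorff, and the foliation is not a product foliation by planes.
-/

open scoped ContDiff Topology
open Set

namespace Pool.Agent.Results.MP_c71f82_gt.AffineGroupTimesLine

open Pool.Agent.Results.MP_c71f82_gt.NonProductH2R Pool.Agent.Y226.CM

/-- The group law of `Aff⁺(ℝ) × ℝ`, on the manifold `ℝ³`. -/
noncomputable def affMul (p q : V) : V :=
  (p.1 + Real.exp p.2.1 * q.1, p.2.1 + q.2.1, p.2.2 + q.2.2)

/-- The leaf space of the foliation is not Hausdorff: there are two different leaves (those of `x`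
and `y`) such that each neighbourhood of `x` and each neighbourhood of `y` meet a common leaf. -/
def LeafSpaceNotHausdorff (g : BilinField) (N : V → V) : Prop :=
  ∃ x y : V, ¬ SameLeaf g N x y ∧ ∀ U W : Set V, IsOpen U → IsOpen W → x ∈ U → y ∈ W →
    ∃ u ∈ U, ∃ w ∈ W, SameLeaf g N u w

theorem not_product_of_leafSpace {g : BilinField} {N : V → V} (h : LeafSpaceNotHausdorff g N) :
    ¬ IsProductByPlanes g N := by
  rintro ⟨Φ, Ψ, hΦ, -, -, -, hleaf⟩
  obtain ⟨x, y, hxy, hUW⟩ := h
  have hne : (Φ x).2 ≠ (Φ y).2 := fun e => hxy ((hleaf x y).2 e)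
  obtain ⟨A, B, hA, hB, hxA, hyB, hAB⟩ := t2_separation hne
  have hc : Continuous fun p => (Φ p).2 := continuous_snd.comp hΦ.continuous
  obtain ⟨u, hu, w, hw, huw⟩ := hUW _ _ (hA.preimage hc) (hB.preimage hc) hxA hyB
  have e := (hleaf u w).1 huw
  have hu' : (Φ u).2 ∈ A := hu
  have hw' : (Φ w).2 ∈ B := hw
  rw [e] at hu'
  exact Set.disjoint_left.1 hAB hu' hw'

/-- **Main result.** `affMul` is a Lie group structure on `ℝ³`, and for every left-invariant
Riemannian metric `g` there is a CMC foliation of this metric Lie group, with unit normal field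
`N`, all of whose leaves are minimal, whose leaf space is not Hausdorff, and which is not a product
foliation by planes. -/
theorem result :
    (∃ one inv, IsLieGroup affMul one inv) ∧
    ∀ g : BilinField, IsRiemannianMetric g → IsLeftInvariant affMul g →
      ∃ N : V → V, IsCMCFoliation g N ∧ (∀ x, HasMeanCurvature g N x 0) ∧
        LeafSpaceNotHausdorff g N ∧ ¬ IsProductByPlanes g N := by
  refine ⟨⟨(0, 0, 0), invH, isLieGroup_H⟩, fun g hg hl => ?_⟩
  obtain ⟨P, rfl⟩ := exists_par hg hl
  have h : LeafSpaceNotHausdorff (gP P) (NP P) :=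
    ⟨_, _, not_same P, fun U W hU hW h1 h2 => not_separated P U W hU hW h1 h2⟩
  exact ⟨NP P, ⟨isFoliation_NP P, fun _ => 0, meanCurvature_P P, fun _ _ _ => rfl⟩,
    meanCurvature_P P, h, not_product_of_leafSpace h⟩

end Pool.Agent.Results.MP_c71f82_gt.AffineGroupTimesLine
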